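import Mathlib

set_option autoImplicit false

namespace Pool.Agent.H.MP_4388f3_co

open Finset Function
open scoped Classical

structure Pl where
  X : Type
  [fin : Fintype X]
  sd : X → Bool
  A : X → X → Prop
  m : ℕ
  x0 : X
  hm : 1 ≤ m
  symm : ∀ x y, A x y → A y x
  ne : ∀ x y, A x y → sd x ≠ sd y
  lo0 : ∀ b, m ^ 2 ≤ #{x | sd x = b}
  hi0 : ∀ b, #{x | sd x = b} ≤ 3 * m ^ 2
  lo1 : ∀ x, m ≤ #{y | A x y}
  hi1 : ∀ x, #{y | A x y} ≤ 3 * m
  lo2 : ∀ x x', sd x = sd x' → ∃ y, A x y ∧ A x' y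
  hi2 : ∀ x x' y y', A x y → A x' y → A x y' → A x' y' → x = x' ∨ y = y'

attribute [instance] Pl.fin

variable {V : Type} [Fintype V]

section
variable {X : Type} [Fintype X] {D E : Finset (V → X)} {K : ℕ}

lemma FU (v : V) (x0 : X) (h1 : ∀ φ ∈ E, update φ v x0 ∈ D)
    (h2 : ∀ ψ ∈ D, #{x | update ψ v x ∈ E} ≤ K) : #E ≤ K * #D := by
  refine card_le_mul_card_image_of_maps_to h1 K fun ψ hψ => le_trans ?_ (h2 ψ hψ)
  refine card_le_card_of_injOn (fun φ => φ v) (fun φ hφ => ?_) fun φ hφ φ' hφ' e => ?_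
  · simp only [coe_filter, Set.mem_ofPred_eq, mem_univ, true_and] at hφ ⊢
    rw [← hφ.2, update_idem, update_eq_self]
    exact hφ.1
  · simp only [coe_filter, Set.mem_ofPred_eq] at hφ hφ' e
    rw [← update_eq_self v φ, ← update_eq_self v φ', ← update_idem x0, hφ.2, e, ← hφ'.2,
      update_idem]

lemma FL (v : V) (x0 : X) (h1 : ∀ ψ ∈ D, ψ v = x0)
    (h2 : ∀ ψ ∈ D, K ≤ #{x | update ψ v x ∈ E}) : K * #D ≤ #E := by
  calc K * #D ≤ ∑ ψ ∈ D, #{x | update ψ v x ∈ E} := by
        rw [mul_comm]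
        exact card_nsmul_le_sum D _ K h2
    _ = #(D.sigma fun ψ => ({x | update ψ v x ∈ E} : Finset X)) := (card_sigma _ _).symm
    _ ≤ _ := by
      refine card_le_card_of_injOn (fun p => update p.1 v p.2) (fun p hp => ?_) ?_
      · simpa using (mem_sigma.mp hp).2
      · rintro ⟨ψ, x⟩ hp ⟨ψ', x'⟩ hp' e
        have h3 : x = x' := by simpa using congrFun e v
        have h4 := congrArg (fun φ => update φ v x0) e
        simp only [update_idem] at h4
        rw [← h1 ψ (mem_sigma.mp hp).1, update_eq_self, h1 ψ (mem_sigma.mp hp).1,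
          ← h1 ψ' (mem_sigma.mp hp').1, update_eq_self] at h4
        subst h3 h4
        rfl
end

variable (G : Pl) (s : V → Bool) (adj : V → V → Prop)

noncomputable def Hom (S : Finset V) : Finset (V → G.X) :=
  {φ | (∀ v ∉ S, φ v = G.x0) ∧ (∀ v ∈ S, G.sd (φ v) = s v) ∧
    ∀ u ∈ S, ∀ v ∈ S, adj u v → G.A (φ u) (φ v)}

noncomputable def Inj (S : Finset V) : Finset (V → G.X) := {φ ∈ Hom G s adj S | Set.InjOn φ S}

noncomputable def deg (S : Finset V) (v : V) : ℕ := #{u ∈ S | adj v u}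

noncomputable def Ext (S : Finset V) (v : V) (ψ : V → G.X) : Finset G.X :=
  {x | G.sd x = s v ∧ ∀ u ∈ S, adj v u → G.A (ψ u) x}

variable {G s adj} {S : Finset V} {v : V}

lemma mem_Hom {φ : V → G.X} : φ ∈ Hom G s adj S ↔ (∀ v ∉ S, φ v = G.x0) ∧
    (∀ v ∈ S, G.sd (φ v) = s v) ∧ ∀ u ∈ S, ∀ v ∈ S, adj u v → G.A (φ u) (φ v) := by
  simp [Hom]

lemma res_mem (hv : v ∉ S) {φ : V → G.X} (h : φ ∈ Hom G s adj (insert v S)) :
    update φ v G.x0 ∈ Hom G s adj S := by
  have e : ∀ u ∈ S, update φ v G.x0 u = φ u := fun u hu =>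
    update_of_ne (by rintro rfl; exact hv hu) _ _
  obtain ⟨h1, h2, h3⟩ := mem_Hom.mp h
  refine mem_Hom.mpr ⟨fun u hu => ?_, fun u hu => ?_, fun u hu w hw h => ?_⟩
  · by_cases h : u = v
    · simp [h]
    · rw [update_of_ne h]
      exact h1 u (by simp [h, hu])
  · rw [e u hu]
    exact h2 u (mem_insert_of_mem hu)
  · rw [e u hu, e w hw]
    exact h3 u (mem_insert_of_mem hu) w (mem_insert_of_mem hw) h

lemma ext_sub (hv : v ∉ S) {ψ : V → G.X} {x : G.X}
    (h : update ψ v x ∈ Hom G s adj (insert v S)) : x ∈ Ext G s adj S v ψ := by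
  obtain ⟨-, h2, h3⟩ := mem_Hom.mp h
  simp only [Ext, mem_filter, mem_univ, true_and]
  refine ⟨by simpa using h2 v (mem_insert_self _ _), fun u hu h => G.symm _ _ ?_⟩
  have := h3 v (mem_insert_self _ _) u (mem_insert_of_mem hu) h
  rwa [update_self, update_of_ne (by rintro rfl; exact hv hu)] at this

lemma ext_le1 (ψ : V → G.X) (h : deg adj S v ≠ 0) : #(Ext G s adj S v ψ) ≤ 3 * G.m := by
  obtain ⟨u, hu⟩ := card_ne_zero.mp h
  refine le_trans (card_le_card fun x hx => ?_) (G.hi1 (ψ u))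
  simp only [Ext, mem_filter, mem_univ, true_and] at hx hu ⊢
  exact hx.2 u hu.1 hu.2

lemma ext_le0 (ψ : V → G.X) : #(Ext G s adj S v ψ) ≤ 3 * G.m ^ 2 := by
  refine le_trans (card_le_card fun x hx => ?_) (G.hi0 (s v))
  simp only [Ext, mem_filter, mem_univ, true_and] at hx ⊢
  exact hx.1

lemma up_step (hv : v ∉ S) : #(Inj G s adj (insert v S)) ≤
    3 * G.m ^ (2 - deg adj S v) * #(Inj G s adj S) := by
  refine FU v G.x0 (fun φ hφ => ?_) fun ψ hψ => ?_
  · obtain ⟨h1, h2⟩ := mem_filter.mp hφ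
    refine mem_filter.mpr ⟨res_mem hv h1, fun a ha b hb e => ?_⟩
    rw [update_of_ne (by rintro rfl; exact hv ha), update_of_ne (by rintro rfl; exact hv hb)] at e
    exact h2 (by simp [mem_coe.mp ha]) (by simp [mem_coe.mp hb]) e
  · refine le_trans (card_le_card (t := Ext G s adj S v ψ) fun x hx =>
      ext_sub hv (mem_filter.mp (mem_filter.mp hx).2).1) ?_
    rcases lt_trichotomy (deg adj S v) 1 with h | h | h
    · rw [show deg adj S v = 0 by omega]
      exact ext_le0 ψ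
    · simpa [h] using ext_le1 (s := s) ψ (show deg adj S v ≠ 0 by omega)
    · obtain ⟨a, ha, b, hb, hab⟩ := one_lt_card.mp h
      rw [mem_filter] at ha hb
      refine (card_le_one.mpr fun x hx y hy => ?_).trans (by simp [show 2 - deg adj S v = 0 by omega])
      simp only [Ext, mem_filter, mem_univ, true_and] at hx hy
      exact (G.hi2 _ _ _ _ (hx.2 a ha.1 ha.2) (hx.2 b hb.1 hb.2) (hy.2 a ha.1 ha.2)
        (hy.2 b hb.1 hb.2)).resolve_left fun e => hab ((mem_filter.mp hψ).2 ha.1 hb.1 e)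

lemma hom_up (S : Finset V) : #(Hom G s adj S) ≤ (3 * G.m ^ 2) ^ #S := by
  induction S using Finset.induction_on with
  | empty =>
    refine (card_le_one.mpr fun φ hφ ψ hψ => funext fun v => ?_).trans (by simp)
    rw [(mem_Hom.mp hφ).1 v (by simp), (mem_Hom.mp hψ).1 v (by simp)]
  | insert v S hv ih =>
    rw [card_insert_of_notMem hv, pow_succ']
    exact (FU v G.x0 (fun φ hφ => res_mem hv hφ) fun ψ _ => (card_le_card fun x hx =>
      ext_sub hv (mem_filter.mp hx).2).trans (ext_le0 ψ)).trans (Nat.mul_le_mul_left _ ih)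

lemma hom_up1 (hv : v ∉ S) (h : deg adj S v ≠ 0) :
    #(Hom G s adj (insert v S)) ≤ 3 * G.m * (3 * G.m ^ 2) ^ #S :=
  (FU v G.x0 (fun _ hφ => res_mem hv hφ) fun ψ _ => (card_le_card fun _ hx =>
    ext_sub hv (mem_filter.mp hx).2).trans (ext_le1 ψ h)).trans (Nat.mul_le_mul_left _ (hom_up S))

lemma bne {a b c : Bool} (h1 : a ≠ b) (h2 : c ≠ b) : a = c := by
  revert a b c
  decide

lemma lo_step (hs : ∀ u v, adj u v → adj v u) (hb : ∀ u v, adj u v → s u ≠ s v) (hv : v ∉ S)
    (hd : deg adj S v ≤ 2) :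
    G.m ^ (2 - deg adj S v) * #(Hom G s adj S) ≤ #(Hom G s adj (insert v S)) := by
  refine FL v G.x0 (fun ψ hψ => (mem_Hom.mp hψ).1 v hv) fun ψ hψ => ?_
  obtain ⟨h1, h2, h3⟩ := mem_Hom.mp hψ
  have e : ∀ x, ∀ u ∈ S, update ψ v x u = ψ u := fun x u hu =>
    update_of_ne (by rintro rfl; exact hv hu) _ _
  refine le_trans ?_ (card_le_card (s := Ext G s adj S v ψ) fun x hx => ?_)
  · have key : ∀ a, a ∈ S.filter (adj v) → ∀ x, G.A (ψ a) x → G.sd x = s v := fun a ha x hx => by
      rw [mem_filter] at ha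
      exact bne (h2 a ha.1 ▸ (G.ne _ _ hx).symm) (hb _ _ ha.2)
    rcases lt_trichotomy (deg adj S v) 1 with h | h | h
    · have h0 : deg adj S v = 0 := by omega
      rw [h0]
      refine (G.lo0 (s v)).trans (card_le_card fun x hx => ?_)
      simp only [Ext, mem_filter, mem_univ, true_and] at hx ⊢
      exact ⟨hx, fun u hu h => absurd h (filter_eq_empty_iff.mp (card_eq_zero.mp h0) hu)⟩
    · obtain ⟨a, ha⟩ := card_eq_one.mp h
      rw [h, pow_one]
      refine (G.lo1 (ψ a)).trans (card_le_card fun x hx => ?_)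
      simp only [Ext, mem_filter, mem_univ, true_and] at hx ⊢
      refine ⟨key a (by simp [ha]) x hx, fun u hu h => ?_⟩
      have : u ∈ S.filter (adj v) := mem_filter.mpr ⟨hu, h⟩
      rw [ha, mem_singleton] at this
      rwa [this]
    · have h0 : deg adj S v = 2 := by omega
      obtain ⟨a, b, -, hab⟩ := card_eq_two.mp h0
      have ha : a ∈ S.filter (adj v) := by simp [hab]
      have hb' : b ∈ S.filter (adj v) := by simp [hab]
      obtain ⟨x, hx, hx'⟩ := G.lo2 (ψ a) (ψ b) (by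
        rw [mem_filter] at ha hb'
        rw [h2 a ha.1, h2 b hb'.1]
        exact bne (hb _ _ ha.2).symm (hb _ _ hb'.2).symm)
      rw [h0]
      refine card_pos.mpr ⟨x, ?_⟩
      simp only [Ext, mem_filter, mem_univ, true_and]
      refine ⟨key a ha x hx, fun u hu h => ?_⟩
      have : u ∈ S.filter (adj v) := mem_filter.mpr ⟨hu, h⟩
      rw [hab, mem_insert, mem_singleton] at this
      rcases this with rfl | rfl <;> assumption
  · simp only [Ext, mem_filter, mem_univ, true_and] at hx ⊢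
    refine mem_Hom.mpr ⟨fun u hu => ?_, fun u hu => ?_, fun u hu w hw h => ?_⟩
    · rw [mem_insert, not_or] at hu
      rw [update_of_ne hu.1, h1 u hu.2]
    · rcases mem_insert.mp hu with rfl | hu
      · simpa using hx.1
      · rw [e x u hu, h2 u hu]
    · rcases mem_insert.mp hu with rfl | hu' <;> rcases mem_insert.mp hw with rfl | hw'
      · exact absurd rfl (hb _ _ h)
      · rw [update_self, e x w hw']
        exact G.symm _ _ (hx.2 w hw' h)
      · rw [update_self, e x u hu']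
        exact hx.2 u hu' (hs _ _ h)
      · rw [e x u hu', e x w hw']
        exact h3 u hu' w hw' h

end Pool.Agent.H.MP_4388f3_co
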