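import Pool.Agent.H.MP_4388f3_co.A

set_option autoImplicit false

namespace Pool.Agent.H.MP_4388f3_co

open Finset Function
open scoped Classical

variable {V : Type} [Fintype V] {s : V → Bool} {adj : V → V → Prop} {S Y : Finset V} {w c : V}

noncomputable def St (G : Pl) (s : V → Bool) (adj : V → V → Prop) (S : Finset V) (w c : V)
    (Z : Finset V) : Finset (V → G.X) :=
  {φ | (∀ v, v ∉ S → v ∉ Z → φ v = G.x0) ∧ (∀ v ∈ S, G.sd (φ v) = s v) ∧
    (∀ u ∈ S, ∀ v ∈ S, adj u v → G.A (φ u) (φ v)) ∧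
    ∀ y, y = w ∨ y ∈ Z → (s y = s c → φ y = φ c) ∧ (s y ≠ s c → G.A (φ c) (φ y))}

lemma St_step {G : Pl} {Z0 : Finset V} (hw : w ∈ S) (hc : c = w ∨ c ∈ Z0) (Z : Finset V)
    (h : ∀ y ∈ Z, y ∉ S ∧ y ∉ Z0) :
    G.m ^ #{y ∈ Z | s y ≠ s c} * #(St G s adj S w c Z0) ≤ #(St G s adj S w c (Z ∪ Z0)) := by
  induction Z using Finset.induction_on with
  | empty => simp
  | insert y Z hy ih =>
    obtain ⟨h1, h2⟩ := h y (mem_insert_self _ _)
    have h3 : (if s y ≠ s c then G.m else 1) * #(St G s adj S w c (Z ∪ Z0)) ≤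
        #(St G s adj S w c (insert y Z ∪ Z0)) := by
      refine FL y G.x0 (fun ψ hψ => (mem_filter.mp hψ).2.1 y h1 (by simp [hy, h2])) fun ψ hψ => ?_
      obtain ⟨a1, a2, a3, a4⟩ := (mem_filter.mp hψ).2
      have e : ∀ x, ∀ u, u ∈ S ∨ u ∈ Z ∪ Z0 → update ψ y x u = ψ u := fun x u hu =>
        update_of_ne (by rintro rfl; simp [hy, h1, h2] at hu) _ _
      have ec : ∀ x, update ψ y x c = ψ c := fun x => e x c (by
        rcases hc with rfl | hc <;> simp [*])
      have key : ∀ x, (s y = s c → x = ψ c) → (s y ≠ s c → G.A (ψ c) x) →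
          update ψ y x ∈ St G s adj S w c (insert y Z ∪ Z0) := by
        intro x b1 b2
        refine mem_filter.mpr ⟨mem_univ _, fun v hv hv' => ?_, fun v hv => ?_,
          fun u hu v hv h => ?_, fun u hu => ?_⟩
        · simp only [insert_union, mem_insert, not_or] at hv'
          rw [update_of_ne hv'.1, a1 v hv hv'.2]
        · rw [e x v (.inl hv), a2 v hv]
        · rw [e x v (.inl hv), e x u (.inl hu)]
          exact a3 u hu v hv h
        · rw [ec]
          simp only [insert_union, mem_insert] at hu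
          rcases hu with hu | hu | hu
          · rw [e x u (.inl (hu ▸ hw))]
            exact a4 u (.inl hu)
          · rw [hu, update_self]
            exact ⟨b1, b2⟩
          · rw [e x u (.inr hu)]
            exact a4 u (.inr hu)
      split_ifs with h4
      · exact (G.lo1 (ψ c)).trans (card_le_card fun x hx => mem_filter.mpr ⟨mem_univ _,
          key x (fun h => absurd h h4) fun _ => (mem_filter.mp hx).2⟩)
      · exact card_pos.mpr ⟨ψ c, mem_filter.mpr ⟨mem_univ _,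
          key _ (fun _ => rfl) fun h => absurd h h4⟩⟩
    refine le_trans ?_ ((Nat.mul_le_mul_left _ (ih fun u hu => h u (mem_insert_of_mem hu))).trans h3)
    rw [filter_insert]
    split_ifs
    · rw [card_insert_of_notMem (by simp [hy]), pow_succ', mul_assoc]
    · rw [one_mul]

lemma St_sub {G : Pl} (hs : ∀ u v, adj u v → adj v u) (hb : ∀ u v, adj u v → s u ≠ s v)
    (hw : w ∈ S) (hY : ∀ y ∈ Y, ∀ u ∈ S ∪ Y, adj y u → u = w ∨ u ∈ Y) :
    St G s adj S w c Y ⊆ Hom G s adj (S ∪ Y) := by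
  intro φ hφ
  obtain ⟨a1, a2, a3, a4⟩ := (mem_filter.mp hφ).2
  have h1 : G.sd (φ c) = s c := by
    by_cases h : s w = s c
    · rw [← (a4 w (.inl rfl)).1 h, a2 w hw, h]
    · exact bne (a2 w hw ▸ G.ne _ _ ((a4 w (.inl rfl)).2 h)) (Ne.symm h)
  have h2 : ∀ u v, (u = w ∨ u ∈ Y) → (v = w ∨ v ∈ Y) → s u ≠ s v → G.A (φ u) (φ v) := by
    intro u v hu hv h
    by_cases h' : s u = s c
    · rw [(a4 u hu).1 h']
      exact (a4 v hv).2 (h' ▸ h.symm)
    · rw [(a4 v hv).1 (bne h.symm (Ne.symm h'))]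
      exact G.symm _ _ ((a4 u hu).2 h')
  refine mem_Hom.mpr ⟨fun v hv => ?_, fun v hv => ?_, fun u hu v hv h => ?_⟩
  · rw [mem_union, not_or] at hv
    exact a1 v hv.1 hv.2
  · rcases mem_union.mp hv with h | h
    · exact a2 v h
    · by_cases h' : s v = s c
      · rw [(a4 v (.inr h)).1 h', h1, h']
      · exact bne (h1 ▸ (G.ne _ _ ((a4 v (.inr h)).2 h')).symm) h'
  · rcases mem_union.mp hu with hu' | hu'
    · rcases mem_union.mp hv with hv' | hv'
      · exact a3 u hu' v hv' h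
      · exact h2 u v (hY v hv' u hu (hs _ _ h)) (.inr hv') (hb _ _ h)
    · exact h2 u v (.inr hu') (hY u hu' v hv h) (hb _ _ h)

lemma block_lo (hs : ∀ u v, adj u v → adj v u) (hb : ∀ u v, adj u v → s u ≠ s v)
    (hw : w ∈ S) (hd : ∀ y ∈ Y, y ∉ S) (hY : ∀ y ∈ Y, ∀ u ∈ S ∪ Y, adj y u → u = w ∨ u ∈ Y)
    (hc : c ∈ Y) (hcw : s c ≠ s w) : ∃ ρ, #Y + 1 ≤ 2 * ρ ∧
      ∀ G : Pl, G.m ^ ρ * #(Hom G s adj S) ≤ #(Hom G s adj (S ∪ Y)) := by
  have h0 := card_filter_add_card_filter_not (s := Y) (fun y => s y ≠ s w)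
  by_cases h : #Y + 1 ≤ 2 * #{y ∈ Y | s y ≠ s w}
  · refine ⟨_, h, fun G => ?_⟩
    have h1 := St_step (G := G) (s := s) (adj := adj) (Z0 := ∅) hw (.inl rfl) Y
      (fun y hy => ⟨hd y hy, by simp⟩)
    rw [union_empty] at h1
    refine le_trans (Nat.mul_le_mul_left _ (card_le_card fun φ hφ => ?_))
      (h1.trans (card_le_card (St_sub hs hb hw hY)))
    obtain ⟨a1, a2, a3⟩ := mem_Hom.mp hφ
    exact mem_filter.mpr ⟨mem_univ _, fun v hv _ => a1 v hv, a2, a3, by simp⟩
  · have h2 : {y ∈ Y.erase c | s y ≠ s c} = {y ∈ Y | ¬ s y ≠ s w} := by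
      ext y
      simp only [mem_filter, mem_erase, not_not]
      exact ⟨fun h => ⟨h.1.2, bne h.2 hcw.symm⟩, fun h =>
        ⟨⟨by rintro rfl; exact hcw h.2, h.1⟩, h.2 ▸ hcw.symm⟩⟩
    refine ⟨#{y ∈ Y | ¬ s y ≠ s w} + 1, by omega, fun G => ?_⟩
    have h1 := St_step (G := G) (s := s) (adj := adj) (Z0 := {c}) (c := c) hw (by simp) (Y.erase c)
      (fun y hy => by simpa [hd y (mem_of_mem_erase hy)] using ne_of_mem_erase hy)
    rw [h2, union_comm, ← insert_eq, insert_erase hc] at h1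
    rw [pow_succ, mul_assoc]
    refine le_trans (Nat.mul_le_mul_left _ ?_) (h1.trans (card_le_card (St_sub hs hb hw hY)))
    refine FL c G.x0 (fun ψ hψ => (mem_Hom.mp hψ).1 c (hd c hc)) fun ψ hψ => ?_
    obtain ⟨a1, a2, a3⟩ := mem_Hom.mp hψ
    have e : ∀ x, ∀ u ∈ S, update ψ c x u = ψ u := fun x u hu =>
      update_of_ne (by rintro rfl; exact hd _ hc hu) _ _
    refine (G.lo1 (ψ w)).trans (card_le_card fun x hx => mem_filter.mpr ⟨mem_univ _,
      mem_filter.mpr ⟨mem_univ _, fun v hv hv' => ?_, fun v hv => ?_, fun u hu v hv h => ?_,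
        fun u hu => ?_⟩⟩)
    · rw [update_of_ne (by simpa using hv'), a1 v hv]
    · rw [e x v hv, a2 v hv]
    · rw [e x v hv, e x u hu]
      exact a3 u hu v hv h
    · rcases hu with rfl | hu
      · rw [e x u hw, update_self]
        exact ⟨fun h => absurd h.symm hcw, fun _ => G.symm _ _ (mem_filter.mp hx).2⟩
      · simp [mem_singleton.mp hu]

def Cl (adj : V → V → Prop) (R K : Finset V) : Prop := ∀ x ∈ K, ∀ u ∈ R, adj x u → u ∈ K

def Conn (adj : V → V → Prop) (R : Finset V) : Prop :=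
  ∀ K ⊆ R, K.Nonempty → Cl adj R K → K = R

lemma exists_z (hs : ∀ u v, adj u v → adj v u) {W R : Finset V} {n : ℕ} (hn : #R ≤ n)
    (hRW : R ⊆ W) (hmin : ∀ K ⊆ W, K.Nonempty → ∀ z ∈ W, z ∉ K →
      (∀ y ∈ K, ∀ u ∈ W, adj y u → u = z ∨ u ∈ K) → n ≤ #K)
    (hR : Conn adj R) (h2 : 1 < #R) :
    ∃ z ∈ R, (∃ u ∈ W, u ∉ R ∧ adj z u) ∧ Conn adj (R.erase z) := by
  by_contra! hcon
  have hex : ∃ j, ∃ z ∈ R, (∃ u ∈ W, u ∉ R ∧ adj z u) ∧ ∃ K ⊆ R.erase z, K.Nonempty ∧
      Cl adj (R.erase z) K ∧ K ≠ R.erase z ∧ #K = j := by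
    by_cases h : ∃ z ∈ R, ∃ u ∈ W, u ∉ R ∧ adj z u
    · obtain ⟨z, hz, h⟩ := h
      have := hcon z hz h
      simp only [Conn, not_forall] at this
      obtain ⟨K, a, b, c, d⟩ := this
      exact ⟨_, z, hz, h, K, a, b, c, d, rfl⟩
    · push Not at h
      obtain ⟨z, hz⟩ := card_pos.mp (zero_lt_one.trans h2)
      have h3 := card_erase_of_mem hz
      have := hmin (R.erase z) ((erase_subset _ _).trans hRW) (card_pos.mp (by omega)) z (hRW hz)
        (notMem_erase _ _) fun y hy u hu a => by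
          by_contra! b
          exact h y (mem_of_mem_erase hy) u hu (fun c => b.2 (mem_erase.mpr ⟨b.1, c⟩)) a
      omega
  obtain ⟨z, hz, hz', K, k1, k2, k3, k4, k5⟩ := Nat.find_spec hex
  by_cases h : ∃ z' ∈ K, ∃ u ∈ W, u ∉ R ∧ adj z' u
  · obtain ⟨z', hK, h⟩ := h
    have hz2 := mem_erase.mp (k1 hK)
    have := hcon z' hz2.2 h
    simp only [Conn, not_forall] at this
    obtain ⟨K', a, b, c, d⟩ := this
    obtain ⟨K', a, b, c, d⟩ : ∃ K' ⊆ R.erase z', K'.Nonempty ∧ Cl adj (R.erase z') K' ∧ z ∉ K' := by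
      by_cases e : z ∈ K'
      · refine ⟨R.erase z' \ K', sdiff_subset, sdiff_nonempty.mpr fun f => d (a.antisymm f),
          fun x hx u hu f => mem_sdiff.mpr ⟨hu, fun g => ?_⟩, by simp [e]⟩
        exact (mem_sdiff.mp hx).2 (c u g x (mem_sdiff.mp hx).1 (hs _ _ f))
      · exact ⟨K', a, b, c, e⟩
    by_cases e : (K' ∩ K).Nonempty
    · refine Nat.find_min hex (m := #(K' ∩ K)) ?_ ⟨z', hz2.2, h, K' ∩ K,
        inter_subset_left.trans a, e, fun x hx u hu f => ?_, fun f => ?_, rfl⟩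
      · rw [← k5]
        exact card_lt_card ⟨inter_subset_right, fun f =>
          notMem_erase z' R (a (mem_inter.mp (f hK)).1)⟩
      · have g := c x (mem_inter.mp hx).1 u hu f
        exact mem_inter.mpr ⟨g, k3 x (mem_inter.mp hx).2 u
          (mem_erase.mpr ⟨by rintro rfl; exact d g, mem_of_mem_erase hu⟩) f⟩
      · exact d (mem_inter.mp (f ▸ mem_erase.mpr ⟨hz2.1.symm, hz⟩ : z ∈ K' ∩ K)).1
    · refine d (hR K' (a.trans (erase_subset _ _)) b (fun x hx u hu f => ?_) ▸ hz)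
      by_cases g : u = z'
      · exact absurd ⟨x, mem_inter.mpr ⟨hx, k3 z' hK x (mem_erase.mpr
          ⟨by rintro rfl; exact d hx, mem_of_mem_erase (a hx)⟩) (hs _ _ (g ▸ f))⟩⟩ e
      · exact c x hx u (mem_erase.mpr ⟨g, hu⟩) f
  · push Not at h
    have h3 := card_erase_of_mem hz
    have h4 := card_le_card k1
    have := hmin K (k1.trans ((erase_subset _ _).trans hRW)) k2 z (hRW hz)
      (fun a => notMem_erase _ _ (k1 a)) fun y hy u hu a => by
        by_cases b : u = z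
        · exact .inl b
        · exact .inr (k3 y hy u (mem_erase.mpr ⟨b, by_contra fun c => h y hy u hu c a⟩) a)
    omega

def Up (s : V → Bool) (adj : V → V → Prop) (A B : Finset V) (t : ℕ) : Prop :=
  ∃ C, ∀ G : Pl, #(Inj G s adj B) ≤ C * G.m ^ t * #(Inj G s adj A)

lemma Up.step {A B : Finset V} {t : ℕ} (h : Up s adj A B t) {v : V} (hv : v ∉ B) :
    Up s adj A (insert v B) (2 - deg adj B v + t) := by
  obtain ⟨C, hC⟩ := h
  exact ⟨3 * C, fun G => (up_step hv).trans ((Nat.mul_le_mul_left _ (hC G)).trans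
    (le_of_eq (by ring)))⟩

lemma Up.step' {A B : Finset V} {t : ℕ} {v : V} (h : Up s adj (insert v A) B t) (hv : v ∉ A) :
    Up s adj A B (2 - deg adj A v + t) := by
  obtain ⟨C, hC⟩ := h
  exact ⟨3 * C, fun G => (hC G).trans ((Nat.mul_le_mul_left _ (up_step hv)).trans
    (le_of_eq (by ring)))⟩

lemma Up.refl (A : Finset V) : Up s adj A A 0 := ⟨1, fun G => by simp⟩

lemma two_orders (hs : ∀ u v, adj u v → adj v u) (hb : ∀ u v, adj u v → s u ≠ s v)
    {W : Finset V} (hdeg : ∀ v ∈ W, 3 ≤ deg adj W v) (hYW : Y ⊆ W)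
    (hmin : ∀ K ⊆ W, K.Nonempty → ∀ z ∈ W, z ∉ K →
      (∀ y ∈ K, ∀ u ∈ W, adj y u → u = z ∨ u ∈ K) → #Y ≤ #K) (j : ℕ) :
    ∀ R ⊆ Y, #R = j + 1 → Conn adj R → ∃ t t', Up s adj (W \ R) W t ∧
      Up s adj (W \ Y) (W \ Y ∪ R) t' ∧ t + t' ≤ j + 2 := by
  have hsplit : ∀ R ⊆ Y, ∀ z ∈ R, 3 ≤ deg adj (W \ R) z + deg adj (W \ Y ∪ R.erase z) z := by
    intro R hR z hz
    refine (hdeg z (hYW (hR hz))).trans ((card_le_card fun u hu => ?_).trans (card_union_le _ _))
    have : u ≠ z := by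
      rintro rfl
      exact hb _ _ (mem_filter.mp hu).2 rfl
    simp only [mem_filter, mem_union, mem_sdiff, mem_erase] at hu ⊢
    tauto
  have e1 : ∀ R ⊆ Y, ∀ z ∈ R, insert z (W \ R) = W \ R.erase z := by
    intro R hR z hz
    have := hYW (hR hz)
    ext u
    simp only [mem_insert, mem_sdiff, mem_erase]
    by_cases h : u = z <;> simp [h, this]
  have e2 : ∀ R : Finset V, ∀ z ∈ R, insert z (W \ Y ∪ R.erase z) = W \ Y ∪ R := by
    intro R z hz
    rw [← union_insert, insert_erase hz]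
  induction j with
  | zero =>
    intro R hR h1 _
    obtain ⟨z, rfl⟩ := card_eq_one.mp h1
    have hz : z ∈ Y := hR (mem_singleton_self z)
    have a := (Up.refl (s := s) (adj := adj) (W \ {z})).step (v := z) (by simp)
    have b := (Up.refl (s := s) (adj := adj) (W \ Y)).step (v := z) (by simp [hz])
    rw [e1 _ hR z (by simp), erase_singleton, sdiff_empty] at a
    rw [insert_eq, union_comm] at b
    refine ⟨_, _, a, b, ?_⟩
    have : deg adj W z ≤ deg adj (W \ {z}) z := card_le_card fun u hu => by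
      have : u ≠ z := by
        rintro rfl
        exact hb _ _ (mem_filter.mp hu).2 rfl
      simp only [mem_filter, mem_sdiff, mem_singleton] at hu ⊢
      tauto
    have := hdeg z (hYW hz)
    omega
  | succ j ih =>
    intro R hR h1 hc
    obtain ⟨z, hz, ⟨u, hu, hu', hzu⟩, hc'⟩ := exists_z hs (card_le_card hR) (hR.trans hYW) hmin hc
      (by omega)
    obtain ⟨t, t', a, b, h⟩ := ih (R.erase z) ((erase_subset _ _).trans hR)
      (by rw [card_erase_of_mem hz]; omega) hc'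
    rw [← e1 R hR z hz] at a
    have b' := b.step (v := z) (by simp [hR hz])
    rw [e2 R z hz] at b'
    refine ⟨_, _, a.step' (by simp [hz]), b', ?_⟩
    have h2 := hsplit R hR z hz
    have h3 : 0 < deg adj (W \ R) z := card_pos.mpr ⟨u, by simp [*]⟩
    have h4 : 0 < deg adj (W \ Y ∪ R.erase z) z := by
      by_contra h5
      have h6 := hc {z} (by simpa using hz) (by simp) fun x hx v hv e => by
        by_contra h7
        rw [mem_singleton] at hx h7
        exact h5 (card_pos.mpr ⟨v, by simp [← hx, e, hv, hx ▸ h7]⟩)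
      rw [← h6, card_singleton] at h1
      omega
    omega

end Pool.Agent.H.MP_4388f3_co
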