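import Pool.Agent.H.MP_4388f3_co.B

set_option autoImplicit false

namespace Pool.Agent.H.MP_4388f3_co

open Finset Function Filter Topology
open scoped Classical

variable {V : Type} [Fintype V] {s : V → Bool} {adj : V → V → Prop}

lemma lemA (hs : ∀ u v, adj u v → adj v u) (hb : ∀ u v, adj u v → s u ≠ s v) (W : Finset V) :
    ∃ r C, ∀ G : Pl, #(Inj G s adj W) ≤ C * G.m ^ r ∧ G.m ^ r ≤ #(Hom G s adj W) := by
  induction W using Finset.strongInduction with
  | H W ih =>
  have red : ∀ S ⊂ W, ∀ t ρ, t ≤ ρ → Up s adj S W t →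
      (∀ G : Pl, G.m ^ ρ * #(Hom G s adj S) ≤ #(Hom G s adj W)) →
      ∃ r C, ∀ G : Pl, #(Inj G s adj W) ≤ C * G.m ^ r ∧ G.m ^ r ≤ #(Hom G s adj W) := by
    rintro S hS t ρ h ⟨C', h1⟩ h2
    obtain ⟨r, C, h3⟩ := ih S hS
    refine ⟨ρ + r, C' * C, fun G => ⟨(h1 G).trans ((Nat.mul_le_mul (Nat.mul_le_mul_left _
      (Nat.pow_le_pow_right G.hm h)) (h3 G).1).trans (le_of_eq (by ring))), ?_⟩⟩
    rw [pow_add]
    exact (Nat.mul_le_mul_left _ (h3 G).2).trans (h2 G)
  rcases W.eq_empty_or_nonempty with rfl | ⟨w0, hw0⟩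
  · refine ⟨0, 1, fun G => ⟨(card_le_card (filter_subset _ _)).trans (by simpa using hom_up ∅),
      card_pos.mpr ⟨fun _ => G.x0, mem_Hom.mpr (by simp)⟩⟩⟩
  by_cases h : ∃ v ∈ W, deg adj (W.erase v) v ≤ 2
  · obtain ⟨v, hv, h⟩ := h
    refine red (W.erase v) (erase_ssubset hv) _ _ le_rfl (by
      simpa [insert_erase hv] using (Up.refl (s := s) (adj := adj) (W.erase v)).step
        (notMem_erase v W)) fun G => ?_
    simpa [insert_erase hv] using lo_step (G := G) hs hb (notMem_erase v W) h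
  push Not at h
  have hdeg : ∀ v ∈ W, 3 ≤ deg adj W v := fun v hv =>
    (h v hv).trans_le (card_le_card (filter_subset_filter _ (erase_subset _ _)))
  have hex : ∃ n, ∃ K ⊆ W, K.Nonempty ∧ ∃ z ∈ W, z ∉ K ∧
      (∀ y ∈ K, ∀ u ∈ W, adj y u → u = z ∨ u ∈ K) ∧ #K = n := by
    have h1 : 0 < #(W.erase w0) := (zero_lt_two.trans (h w0 hw0)).trans_le (card_filter_le _ _)
    exact ⟨_, W.erase w0, erase_subset _ _, card_pos.mp h1, w0, hw0, notMem_erase _ _,
      fun y _ u hu _ => by simpa [hu] using em (u = w0), rfl⟩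
  obtain ⟨Y, hYW, hY0, w, hw, hwY, hY, hn⟩ := Nat.find_spec hex
  have hmin : ∀ K ⊆ W, K.Nonempty → ∀ z ∈ W, z ∉ K →
      (∀ y ∈ K, ∀ u ∈ W, adj y u → u = z ∨ u ∈ K) → #Y ≤ #K := fun K a b z c d e =>
    hn ▸ Nat.find_min' hex ⟨K, a, b, z, c, d, e, rfl⟩
  have hc : Conn adj Y := fun K a b c => eq_of_subset_of_card_le a (hmin K (a.trans hYW) b w hw
    (fun e => hwY (a e)) fun y hy u hu e => (hY y (a hy) u hu e).imp_right fun f => c y hy u f e)
  obtain ⟨t, t', a, b, h1⟩ := two_orders hs hb hdeg hYW hmin (#Y - 1) Y subset_rfl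
    (by have := card_pos.mpr hY0; omega) hc
  have e : W \ Y ∪ Y = W := sdiff_union_of_subset hYW
  obtain ⟨c, hc, hcw⟩ : ∃ c ∈ Y, s c ≠ s w := by
    obtain ⟨y, hy⟩ := hY0
    by_cases e : s y = s w
    · obtain ⟨u, hu⟩ := card_pos.mp (zero_lt_three.trans_le (hdeg y (hYW hy)))
      rw [mem_filter] at hu
      have := (hb _ _ hu.2).symm
      rw [e] at this
      exact ⟨u, (hY y hy u hu.1 hu.2).resolve_left (by rintro rfl; exact this rfl), this⟩
    · exact ⟨y, hy, e⟩
  obtain ⟨ρ, h2, h3⟩ := block_lo (S := W \ Y) (Y := Y) hs hb (mem_sdiff.mpr ⟨hw, hwY⟩)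
    (by simp +contextual) (by rwa [e]) hc hcw
  rw [e] at b h3
  have h4 : W \ Y ⊂ W := sdiff_ssubset hYW hY0
  have := card_pos.mpr hY0
  by_cases h5 : t ≤ ρ
  · exact red _ h4 _ _ h5 a h3
  · exact red _ h4 _ _ (by omega) b h3

lemma lemB [Nonempty V] (hs : ∀ u v, adj u v → adj v u) (hb : ∀ u v, adj u v → s u ≠ s v) :
    ∃ r C, ∀ G : Pl, G.m ^ r ≤ #(Hom G s adj univ) ∧ #(Hom G s adj univ) ≤ C * G.m ^ r := by
  let T : Finset (V → V) := {π | (∀ v, s (π v) = s v) ∧ ∀ v, π (π v) = π v}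
  let ad : (V → V) → V → V → Prop := fun π x y => ∃ u v, adj u v ∧ π u = x ∧ π v = y
  have h : ∀ π : T, ∃ r C, ∀ G : Pl, #(Inj G s (ad π.1) (univ.image π.1)) ≤ C * G.m ^ r ∧
      G.m ^ r ≤ #(Hom G s (ad π.1) (univ.image π.1)) := fun π => by
    refine lemA ?_ ?_ _
    · rintro _ _ ⟨u, v, h, rfl, rfl⟩
      exact ⟨v, u, hs _ _ h, rfl, rfl⟩
    · rintro _ _ ⟨u, v, h, rfl, rfl⟩
      rw [(mem_filter.mp π.2).2.1, (mem_filter.mp π.2).2.1]
      exact hb _ _ h
  choose r C h using h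
  have : Nonempty T := ⟨⟨id, by simp [T]⟩⟩
  obtain ⟨π, hπ⟩ := Finite.exists_max r
  refine ⟨r π, ∑ p, C p, fun G => ⟨(h π G).2.trans ?_, ?_⟩⟩
  · obtain ⟨p1, p2⟩ := (mem_filter.mp π.2).2
    refine card_le_card_of_injOn (fun ψ => ψ ∘ π.1) (fun ψ hψ => ?_) fun ψ hψ ψ' hψ' e => ?_
    · obtain ⟨-, a2, a3⟩ := mem_Hom.mp hψ
      exact mem_Hom.mpr ⟨by simp, fun v _ => (a2 _ (by simp)).trans (p1 v), fun u _ v _ h =>
        a3 _ (by simp) _ (by simp) ⟨u, v, h, rfl, rfl⟩⟩
    · funext v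
      by_cases hv : v ∈ univ.image π.1
      · obtain ⟨u, -, rfl⟩ := mem_image.mp hv
        exact congrFun e u
      · rw [(mem_Hom.mp hψ).1 v hv, (mem_Hom.mp hψ').1 v hv]
  · calc _ ≤ #(univ.biUnion fun p : T => (Inj G s (ad p.1) (univ.image p.1)).image (· ∘ p.1)) := by
          refine card_le_card fun φ hφ => ?_
          obtain ⟨-, a2, a3⟩ := mem_Hom.mp hφ
          have e : ∀ v, φ (invFun φ (φ v)) = φ v := fun v => invFun_eq ⟨v, rfl⟩
          let p : T := ⟨fun v => invFun φ (φ v), mem_filter.mpr ⟨mem_univ _, fun v => by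
            rw [← a2 _ (mem_univ _), e, a2 _ (mem_univ _)], fun v => by simp only [e]⟩⟩
          refine mem_biUnion.mpr ⟨p, mem_univ _, mem_image.mpr
            ⟨fun v => if v ∈ univ.image p.1 then φ v else G.x0, mem_filter.mpr ⟨mem_Hom.mpr
              ⟨fun v hv => if_neg hv, fun v hv => ?_, fun u hu v hv h => ?_⟩, ?_⟩, ?_⟩⟩
          · rw [if_pos hv, a2 v (mem_univ _)]
          · rw [if_pos hv, if_pos hu]
            obtain ⟨a, b, h, rfl, rfl⟩ := h
            simp only [p, e]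
            exact a3 _ (mem_univ _) _ (mem_univ _) h
          · intro u hu v hv h
            simp only [if_pos (mem_coe.mp hu), if_pos (mem_coe.mp hv)] at h
            obtain ⟨a, -, rfl⟩ := mem_image.mp hu
            obtain ⟨b, -, rfl⟩ := mem_image.mp hv
            simp only [p, e] at h ⊢
            rw [h]
          · funext v
            simp only [comp_apply]
            rw [if_pos (mem_image_of_mem _ (mem_univ _))]
            exact e v
      _ ≤ ∑ p : T, C p * G.m ^ r π := card_biUnion_le.trans (sum_le_sum fun p _ =>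
          card_image_le.trans ((h p G).1.trans (Nat.mul_le_mul_left _
            (Nat.pow_le_pow_right G.hm (hπ p)))))
      _ = _ := (sum_mul ..).symm

lemma log_lim {m a : ℕ → ℕ} (hm : Tendsto m atTop atTop) {r C : ℕ} (h1 : ∀ n, m n ^ r ≤ a n)
    (h2 : ∀ n, a n ≤ C * m n ^ r) :
    Tendsto (fun n => Real.log (a n) / Real.log (m n)) atTop (𝓝 r) := by
  have hl : Tendsto (fun n => Real.log (m n)) atTop atTop :=
    Real.tendsto_log_atTop.comp (tendsto_natCast_atTop_atTop.comp hm)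
  have h3 := (hl.const_div_atTop (Real.log C)).const_add (r : ℝ)
  rw [add_zero] at h3
  refine tendsto_of_tendsto_of_tendsto_of_le_of_le' tendsto_const_nhds h3 ?_ ?_
  · filter_upwards [hl.eventually_gt_atTop 0, hm.eventually_gt_atTop 0] with n h h'
    rw [le_div_iff₀ h, ← Real.log_pow]
    exact Real.log_le_log (by positivity) (by exact_mod_cast h1 n)
  · filter_upwards [hl.eventually_gt_atTop 0, hm.eventually_gt_atTop 0] with n h h'
    have h4 : 0 < a n := (pow_pos h' r).trans_le (h1 n)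
    have h5 : C ≠ 0 := by
      rintro rfl
      simpa using h4.trans_le (h2 n)
    rw [div_le_iff₀ h, add_mul, div_mul_cancel₀ _ h.ne', ← Real.log_pow, ← Real.log_mul
      (by positivity) (by positivity), mul_comm]
    exact Real.log_le_log (by positivity) (by exact_mod_cast h2 n)

lemma lemC (hs : ∀ u v, adj u v → adj v u) (hb : ∀ u v, adj u v → s u ≠ s v) {u v : V}
    (h : adj u v) (G : ℕ → Pl) (hm : Tendsto (fun n => (G n).m) atTop atTop) (N : ℕ → ℕ)
    (hN : ∀ n, (G n).m ^ 2 ≤ N n ∧ N n ≤ 3 * (G n).m ^ 2) : ∃ β : ℝ, β ≠ 0 ∧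
      Tendsto (fun n => -Real.log (#(Hom (G n) s adj univ) / (N n : ℝ) ^ Fintype.card V) /
        Real.log (G n).m) atTop (𝓝 β) := by
  have : Nonempty V := ⟨u⟩
  obtain ⟨r, C, h1⟩ := lemB hs hb
  have h2 := log_lim hm (fun n => (h1 (G n)).1) fun n => (h1 (G n)).2
  have h3 := log_lim hm (a := fun n => N n ^ Fintype.card V) (r := 2 * Fintype.card V)
    (C := 3 ^ Fintype.card V) (fun n => by
      rw [pow_mul]
      exact Nat.pow_le_pow_left (hN n).1 _) fun n => by
      rw [pow_mul, ← mul_pow]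
      exact Nat.pow_le_pow_left (hN n).2 _
  refine ⟨_, ?_, (h3.sub h2).congr fun n => ?_⟩
  · obtain ⟨n, hn⟩ := (hm.eventually_gt_atTop (3 ^ Fintype.card V)).exists
    have h4 := hom_up1 (G := G n) (s := s) (adj := adj) (notMem_erase u univ)
      (card_ne_zero.mpr ⟨v, mem_filter.mpr ⟨by
        simpa using fun e : v = u => hb _ _ h (by rw [e]), h⟩⟩)
    rw [insert_erase (mem_univ u), card_erase_of_mem (mem_univ u), card_univ] at h4
    obtain ⟨k, hk⟩ := Nat.exists_eq_add_one_of_ne_zero (Fintype.card_ne_zero (α := V))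
    intro h5
    have h6 : 2 * Fintype.card V = r := by exact_mod_cast sub_eq_zero.mp h5
    have h7 := (h1 (G n)).1.trans h4
    rw [← h6, hk, add_tsub_cancel_right] at h7
    rw [hk] at hn
    have h8 := Nat.mul_lt_mul_of_pos_right hn (pow_pos (G n).hm (2 * k + 1))
    exact absurd (((le_of_eq (by ring)).trans h7).trans (le_of_eq (by ring))) h8.not_ge
  · have h4 : 0 < N n := (pow_pos (G n).hm 2).trans_le (hN n).1
    have h5 : 0 < #(Hom (G n) s adj univ) := (pow_pos (G n).hm r).trans_le (h1 (G n)).1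
    rw [Real.log_div (by positivity) (by positivity)]
    push_cast
    ring

end Pool.Agent.H.MP_4388f3_co
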