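import Pool.Agent.H.MP_4388f3_co.C

set_option autoImplicit false

namespace Pool.Agent.H.MP_4388f3_co

open Finset Function Filter Topology Configuration Configuration.ProjectivePlane
open scoped Classical

def rel {P L : Type} (r : P → L → Prop) : P ⊕ L → P ⊕ L → Prop
  | .inl p, .inr l => r p l
  | .inr l, .inl p => r p l
  | _, _ => False

lemma rel_symm {P L : Type} (r : P → L → Prop) (x y : P ⊕ L) : rel r x y → rel r y x := by
  cases x <;> cases y <;> simp [rel]

lemma rel_ne {P L : Type} (r : P → L → Prop) (x y : P ⊕ L) : rel r x y → x.isLeft ≠ y.isLeft := by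
  cases x <;> cases y <;> simp [rel]

lemma card_split {P L : Type} [Fintype P] [Fintype L] (q : P ⊕ L → Prop) [DecidablePred q] :
    #{x | q x} = Nat.card {p // q (.inl p)} + Nat.card {l // q (.inr l)} := by
  rw [← Nat.card_sum, ← Nat.card_congr Equiv.subtypeSum, Nat.card_eq_fintype_card,
    Fintype.card_subtype]

variable (P L : Type) [Membership P L] [Fintype P] [Fintype L] [ProjectivePlane P L]

lemma c0 (b : Bool) : #{x : P ⊕ L | x.isLeft = b} = order P L ^ 2 + order P L + 1 := by
  rw [card_split]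
  cases b
  · simp [card_lines P L]
  · simp [card_points P L]

lemma c1 (x : P ⊕ L) : #{y | rel (fun (p : P) (l : L) => p ∈ l) x y} = order P L + 1 := by
  rw [card_split]
  cases x with
  | inl p => simpa [rel, lineCount] using lineCount_eq L p
  | inr l => simpa [rel, pointCount] using pointCount_eq P l

noncomputable def mkPl : Pl where
  X := P ⊕ L
  sd := Sum.isLeft
  A := rel fun p l => p ∈ l
  m := order P L
  x0 := .inl (exists_config (P := P) (L := L)).choose
  hm := (one_lt_order P L).le
  symm := rel_symm _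
  ne := rel_ne _
  lo0 b := by rw [c0]; omega
  hi0 b := by
    have := one_lt_order P L
    rw [c0]
    nlinarith
  lo1 x := by rw [c1]; omega
  hi1 x := by
    have := one_lt_order P L
    rw [c1]
    omega
  lo2 x x' h := by
    by_cases e : x = x'
    · obtain ⟨y, hy⟩ := card_pos.mp ((Nat.succ_pos _).trans_eq (c1 P L x).symm)
      exact ⟨y, (mem_filter.mp hy).2, e ▸ (mem_filter.mp hy).2⟩
    rcases x with p | l <;> rcases x' with p' | l'
    · exact ⟨.inr _, HasLines.mkLine_ax (L := L) fun f : p = p' => e (by rw [f])⟩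
    · simp at h
    · simp at h
    · exact ⟨.inl _, HasPoints.mkPoint_ax (P := P) fun f : l = l' => e (by rw [f])⟩
  hi2 x x' y y' a b c d := by
    rcases x with p | l <;> rcases x' with p' | l' <;> rcases y with q | m <;>
      rcases y' with q' | m' <;> simp only [rel] at a b c d
    · simpa using Nondegenerate.eq_or_eq a b c d
    · simpa using (Nondegenerate.eq_or_eq a c b d).symm

lemma hom_eq {A B : Type} [Fintype A] [Fintype B] (E : Set (A × B)) :
    Nat.card {f : (A → P) × (B → L) // ∀ e ∈ E, f.1 e.1 ∈ f.2 e.2} =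
      #(Hom (mkPl P L) Sum.isLeft (rel fun a b => (a, b) ∈ E) univ) := by
  rw [Nat.card_eq_fintype_card, Fintype.card_subtype]
  refine card_bij (fun f _ => Sum.map f.1 f.2) (fun f hf => mem_Hom.mpr ⟨by simp, fun v _ => ?_,
    fun u _ v _ h => ?_⟩) (fun f _ g _ e => ?_) fun φ hφ => ?_
  · cases v <;> rfl
  · cases u <;> cases v <;> simp only [rel] at h <;> exact (mem_filter.mp hf).2 _ h
  · exact Prod.ext (funext fun a => Sum.inl_injective (congrFun e (.inl a)))
      (funext fun b => Sum.inr_injective (congrFun e (.inr b)))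
  · obtain ⟨-, a2, a3⟩ := mem_Hom.mp hφ
    choose f hf using fun a => Sum.isLeft_iff.mp (a2 (.inl a) (mem_univ _))
    choose g hg using fun b => Sum.isRight_iff.mp
      (Sum.isLeft_eq_false.mp (a2 (.inr b) (mem_univ _)))
    refine ⟨(f, g), mem_filter.mpr ⟨mem_univ _, fun e he => ?_⟩, funext fun v => ?_⟩
    · have := a3 (.inl e.1) (mem_univ _) (.inr e.2) (mem_univ _) he
      rwa [hf, hg] at this
    · cases v
      · exact (hf _).symm
      · exact (hg _).symm

theorem lim (P L : ℕ → Type) [∀ n, Membership (P n) (L n)] [∀ n, Fintype (P n)]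
    [∀ n, Fintype (L n)] [∀ n, ProjectivePlane (P n) (L n)]
    (hm : Tendsto (fun n => order (P n) (L n)) atTop atTop)
    {A B : Type} [Fintype A] [Fintype B] (E : Set (A × B)) (hE : E.Nonempty) : ∃ β : ℝ, β ≠ 0 ∧
      Tendsto (fun n => -Real.log ((Nat.card {f : (A → P n) × (B → L n) //
        ∀ e ∈ E, f.1 e.1 ∈ f.2 e.2} : ℝ) / ((Nat.card (P n) : ℝ) ^ Nat.card A *
          (Nat.card (L n) : ℝ) ^ Nat.card B)) / Real.log (order (P n) (L n))) atTop (𝓝 β) := by
  obtain ⟨⟨a, b⟩, h⟩ := hE
  obtain ⟨β, h1, h2⟩ := lemC (s := Sum.isLeft) (rel_symm fun a b => (a, b) ∈ E) (rel_ne _)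
    (u := .inl a) (v := .inr b) h (fun n => mkPl (P n) (L n)) hm
    (fun n => order (P n) (L n) ^ 2 + order (P n) (L n) + 1) fun n =>
      c0 (P n) (L n) true ▸ ⟨(mkPl (P n) (L n)).lo0 true, (mkPl (P n) (L n)).hi0 true⟩
  refine ⟨β, h1, h2.congr fun n => ?_⟩
  rw [hom_eq]
  simp only [Nat.card_eq_fintype_card, card_points (P n) (L n), card_lines (P n) (L n),
    Fintype.card_sum, pow_add]
  rfl

end Pool.Agent.H.MP_4388f3_co
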